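import Pool.Agent.Helper72.HK.Lim
import Pool.Agent.Helper72.HK.Uni

/-!
# Uniform PI and QL bounds do not imply convergence of the heat kernels

The spaces are `X_N = (ℝ, |·|, (3/2 + cos(2π(N+1)x)/2) dx)` and the limit is
`X = (ℝ, |·|, (3/2) dx)`; the embeddings into `Z = ℝ` are the identity.
-/

set_option autoImplicit false

open MeasureTheory Filter Topology Set Metric
open scoped ENNReal NNReal Real
open Pool.Agent.N288.MM Pool.Agent.Helper72.HK

namespace Pool.Agent.Results.MP_a99579_gt.HeatKernels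

/-- the pmGH convergence `(ℝ, w_N dx) → (ℝ, (3/2) dx)` -/
noncomputable def conv : PMGH (fun N => line (wN N) (wN_weight N)) (line wI wI_weight)
    (fun _ => (0 : ℝ)) (0 : ℝ) where
  Z := ℝ
  ι := fun _ x => x
  κ := fun x => x
  iso_ι := fun _ => isometry_id
  iso_κ := isometry_id
  base := tendsto_const_nhds
  haus₁ := fun R ε _ hε => Eventually.of_forall fun i y _ => ⟨y, by
    show dist (y : ℝ) y < ε
    rw [dist_self]; exact hε⟩
  haus₂ := fun R ε _ hε => Eventually.of_forall fun i y _ => ⟨y, by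
    show dist (y : ℝ) y < ε
    rw [dist_self]; exact hε⟩
  weak := fun _ hψ => weak_int (cbs_integrable hψ)

/-- The heat kernels `p i` of `S i` converge to the heat kernel `q` of `T`:
`p i τ (x i) (y i) → q τ x₀ y₀` for every `τ > 0` whenever `x i → x₀` and `y i → y₀` in `Z`. -/
def KernelsConverge {S : ℕ → Space} {T : Space} {s : ∀ i, (S i).X} {t : T.X} (P : PMGH S T s t)
    (p : ∀ i, ℝ → (S i).X → (S i).X → ℝ) (q : ℝ → T.X → T.X → ℝ) : Prop :=
  ∀ τ : ℝ, 0 < τ → ∀ (x y : ∀ i, (S i).X) (x₀ y₀ : T.X),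
    Tendsto (fun i => P.ι i (x i)) atTop (𝓝 (P.κ x₀)) →
    Tendsto (fun i => P.ι i (y i)) atTop (𝓝 (P.κ y₀)) →
    Tendsto (fun i => p i τ (x i) (y i)) atTop (𝓝 (q τ x₀ y₀))

/-- Q2: there is a pmGH convergent sequence of infinitesimally Hilbertian spaces, with a uniform
local doubling and Poincaré inequality and with a uniform quantitative Lipschitz (QL) bound for
harmonic functions, all satisfied by the limit space too, such that each of these spaces has exactly
one (continuous) heat kernel, and the heat kernels do not converge to the heat kernel of the limit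
space. -/
theorem result : ∃ (S : ℕ → Space) (T : Space) (s : ∀ i, (S i).X) (t : T.X) (P : PMGH S T s t)
    (cv cp ch : ℝ → ℝ) (Λ : ℝ),
    1 ≤ Λ ∧ (∀ R, 0 < R → 1 ≤ cv R ∧ 1 ≤ cp R ∧ 1 ≤ ch R) ∧
    (∀ i, IH (S i) ∧ PI (S i) cv cp Λ ∧ QL (S i) ch) ∧
    (IH T ∧ PI T cv cp Λ ∧ QL T ch) ∧
    (∀ i, ∃ p, IsHeatKernel (S i) p ∧ ∀ p', IsHeatKernel (S i) p' →
      ∀ τ : ℝ, 0 < τ → ∀ x y, p' τ x y = p τ x y) ∧
    (∃ q, IsHeatKernel T q ∧ ∀ q', IsHeatKernel T q' →
      ∀ τ : ℝ, 0 < τ → ∀ x y, q' τ x y = q τ x y) ∧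
    ∀ (p : ∀ i, ℝ → (S i).X → (S i).X → ℝ) (q : ℝ → T.X → T.X → ℝ),
      (∀ i, IsHeatKernel (S i) (p i)) → IsHeatKernel T q → ¬ KernelsConverge P p q := by
  refine ⟨_, _, _, _, conv, fun _ => 4, fun _ => 3, fun _ => 128, 1, le_rfl,
    fun R _ => ⟨by norm_num, by norm_num, by norm_num⟩,
    fun i => ⟨line_IH _, line_PI _, QL_line _⟩, ⟨line_IH _, line_PI _, QL_line _⟩,
    fun i => ⟨pk (wN_weight i), isHeatKernel _, fun p' hp' τ hτ x y =>
      kernel_unique (wN_weight i) hp' (isHeatKernel _) hτ x y⟩,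
    ⟨pk wI_weight, isHeatKernel _, fun q' hq' τ hτ x y =>
      kernel_unique wI_weight hq' (isHeatKernel _) hτ x y⟩, fun p q hp hq hc => ?_⟩
  refine not_conv fun τ hτ x y => ?_
  have h1 : Tendsto (fun i => p i τ x y) atTop (𝓝 (q τ x y)) :=
    hc τ hτ (fun _ => (x : ℝ)) (fun _ => (y : ℝ)) x y tendsto_const_nhds tendsto_const_nhds
  have e1 : ∀ i, p i τ x y = pk (wN_weight i) τ x y := fun i =>
    kernel_unique (wN_weight i) (hp i) (isHeatKernel _) hτ x y
  have e2 : q τ x y = pk wI_weight τ x y := kernel_unique wI_weight hq (isHeatKernel _) hτ x y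
  rw [e2] at h1
  exact h1.congr e1

end Pool.Agent.Results.MP_a99579_gt.HeatKernels
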